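import Pool.Agent.H7.HD.All6
import Pool.Agent.H7.HD.Targets9

/-!
# GR. The base below an extendible cardinal without the first alternative
-/

open Ordinal Cardinal Order Set
open scoped ZFSet
open _root_.HD

universe u

namespace Pool.Agent.H7.HD9

/-- GR. -/
def T_GR : Prop := ∀ δ : Ordinal.{u}, Extendible δ → ¬ CaseA δ → ∀ l < δ,
  ∃ D : Cardinal.{u}, D.ord < δ ∧ l < D.ord ∧ GoodN D ∧ GoodW D

theorem gr (hGE : T_GE.{u}) (hRW : T_RW.{u}) : T_GR.{u} := by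
  intro δ hδ hA l hl
  obtain ⟨D, rfl, hD⟩ := asm_good All.xa All.xb All.yl hδ hA
  obtain ⟨D', h1, h2, h3, h4⟩ := hRW D hδ hD (hGE D hδ) l hl
  exact ⟨D', Cardinal.ord_lt_ord.2 h1, h2, h3, h4⟩

end Pool.Agent.H7.HD9
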