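import Pool.Agent.H7.HD.Targets9
import Pool.Agent.H7.HD.All8

/-!
# Module LF: the least upper bound function
-/

open Ordinal Cardinal Order Set
open scoped ZFSet
open _root_.HD

universe u

namespace Pool.Agent.H7.HD9.LF

/-- `E en c ∩ X` and `E en c \ X` are not both positive for definable `X` -/
theorem ult_ds {en : Ordinal.{u} → ZFSet.{u}} (hen : EN en) {μ ν : Ordinal.{u}}
    {S : Set Ordinal.{u}}
    (h : ∀ x, ¬ (Pos μ ν (S ∩ E en x) ∧ Pos μ ν (S \ E en x)))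
    {X : Set Ordinal.{u}} (hX : DS X) : ¬ (Pos μ ν (S ∩ X) ∧ Pos μ ν (S \ X)) := by
  rintro ⟨h1, h2⟩
  obtain ⟨x, hx⟩ := (All.ea en hen).2.2.1 X hX ν
  refine h x ⟨h1.mono fun b hb hb1 _ => ?_, h2.mono fun b hb hb1 _ => ?_⟩
  · refine ⟨hb1.1, ?_⟩
    rw [hx]
    exact ⟨hb1.2, hb⟩
  · refine ⟨hb1.1, fun h => hb1.2 ?_⟩
    rw [hx] at h
    exact h.1

theorem lt_ds {en : Ordinal.{u} → ZFSet.{u}}
    (hF : DO fun w => w 2 = af en (w 1) (w 0)) (g g' : Ordinal.{u}) :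
    DS {a | af en g a < af en g' a} := by
  have h1 : DO fun w => af en (w 1) (w 0) < af en (w 2) (w 0) := by
    refine (DO.ex (R := fun x w => x = af en (w 1) (w 0) ∧ ∃ y, y = af en (w 2) (w 0) ∧ x < y)
      ?_).congr fun w => ?_
    · refine DO.and (DO.s3 (X := fun a b c => c = af en b a) hF 1 2 0) ?_
      refine DO.ex (R := fun y w => y = af en (w 3) (w 1) ∧ w 0 < y) ?_
      exact DO.and (DO.s3 (X := fun a b c => c = af en b a) hF 2 4 0) (DO.lt 1 0)
    · constructor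
      · intro h
        exact ⟨_, rfl, _, rfl, h⟩
      · rintro ⟨_, rfl, _, rfl, h⟩
        exact h
  exact DO.sect (P := fun a w => af en (w 0) a < af en (w 1) a) h1
    (fun n => if n = 0 then g else g')

theorem cmp_of {en : Ordinal.{u} → ZFSet.{u}} (hen : EN en)
    (hF : DO fun w => w 2 = af en (w 1) (w 0)) {μ ν : Ordinal.{u}} {S : Set Ordinal.{u}}
    (h : ∀ x, ¬ (Pos μ ν (S ∩ E en x) ∧ Pos μ ν (S \ E en x))) (g g' : Ordinal.{u}) :
    ¬ (Pos μ ν {a | a ∈ S ∧ af en g a < af en g' a} ∧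
      Pos μ ν {a | a ∈ S ∧ af en g' a ≤ af en g a}) := by
  rintro ⟨h1, h2⟩
  refine ult_ds hen h (lt_ds hF g g') ⟨h1.mono fun b hb hb1 _ => hb1, h2.mono fun b _ hb1 _ => ?_⟩
  exact ⟨hb1.1, fun h => absurd h (not_lt.2 hb1.2)⟩

/-- the function -/
noncomputable def hh (A : Ordinal.{u} → Prop) (F : Ordinal.{u} → Ordinal.{u} → Ordinal.{u})
    (f : Ordinal.{u} → Ordinal.{u}) (η : Ordinal.{u}) (a : Ordinal.{u}) : Ordinal.{u} :=
  sSup {x | ∃ i, i < η ∧ i < a ∧ A i ∧ F i a < f a ∧ x = succ (F i a)}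

theorem hh_le (A : Ordinal.{u} → Prop) (F : Ordinal.{u} → Ordinal.{u} → Ordinal.{u})
    (f : Ordinal.{u} → Ordinal.{u}) (η : Ordinal.{u}) (a : Ordinal.{u}) : hh A F f η a ≤ f a := by
  refine csSup_le' ?_
  rintro x ⟨i, -, -, -, h, rfl⟩
  exact Order.succ_le_of_lt h

theorem lt_hh {A : Ordinal.{u} → Prop} {F : Ordinal.{u} → Ordinal.{u} → Ordinal.{u}}
    {f : Ordinal.{u} → Ordinal.{u}} {η a i : Ordinal.{u}} (h1 : i < η) (h2 : i < a) (h3 : A i)
    (h4 : F i a < f a) : F i a < hh A F f η a := by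
  refine lt_of_lt_of_le (Order.lt_succ _) (le_csSup ⟨f a, ?_⟩ ⟨i, h1, h2, h3, h4, rfl⟩)
  rintro x ⟨i, -, -, -, h, rfl⟩
  exact Order.succ_le_of_lt h

theorem ex_of_lt_hh {A : Ordinal.{u} → Prop} {F : Ordinal.{u} → Ordinal.{u} → Ordinal.{u}}
    {f : Ordinal.{u} → Ordinal.{u}} {η a k : Ordinal.{u}} (h : k < hh A F f η a) :
    ∃ i, i < η ∧ i < a ∧ A i ∧ F i a < f a ∧ k ≤ F i a := by
  obtain ⟨x, ⟨i, h1, h2, h3, h4, rfl⟩, h5⟩ := exists_lt_of_lt_csSup' h
  exact ⟨i, h1, h2, h3, h4, Order.lt_succ_iff.1 h5⟩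

/-- small sets of indices -/
theorem star {μ ν η : Ordinal.{u}} (hν : ℵ₀ < ν.cof) (hην : η < ν) (hne : ν.cof ≠ η.cof)
    {T : Set Ordinal.{u}} (hT : Pos μ ν T) {idx : Ordinal.{u} → Ordinal.{u}}
    (hidx : ∀ a ∈ T, a < ν → idx a < η) :
    ∃ s < η, Pos μ ν {a | a ∈ T ∧ idx a ≤ s} := by
  have hνl : IsSuccLimit ν := by
    rw [← Ordinal.one_lt_cof_iff]
    exact Cardinal.one_lt_aleph0.trans hν
  rcases mem_range_succ_or_isSuccPrelimit η with ⟨s, rfl⟩ | hp
  · exact ⟨s, Order.lt_succ s, hT.mono fun a ha haT _ =>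
      ⟨haT, Order.lt_succ_iff.1 (hidx a haT ha)⟩⟩
  · rcases eq_or_ne η 0 with rfl | h0
    · obtain ⟨b, hb, -, hb2, -⟩ := hT univ ⟨fun a ha => ⟨a + 1, hνl.add_one_lt ha,
        _root_.lt_add_one a, mem_univ _⟩, fun _ _ _ _ => mem_univ _⟩
      exact absurd (hidx b hb2 hb) (not_lt.2 zero_le)
    · have hηl : IsSuccLimit η := ⟨by simpa using h0, hp⟩
      rcases lt_or_gt_of_ne hne with hlt | hgt
      · -- small club
        obtain ⟨B, hB1, hB2, e, he⟩ := All.vg ν hνl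
        classical
        obtain ⟨s, hs, hs2⟩ := Pool.Agent.H3.HD.exists_bound (ρ := η) (τ := ν.cof.ord)
          (by rw [Cardinal.card_ord]; exact hlt)
          (fun i => if e i ∈ T ∧ e i < ν then idx (e i) else 0) (fun i _ => by
            by_cases h : e i ∈ T ∧ e i < ν
            · simp only [h, and_self, if_true]
              exact hidx _ h.1 h.2
            · simp only [h, if_false]
              exact hηl.bot_lt)
        refine ⟨s, hs, fun C hC => ?_⟩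
        obtain ⟨b, hb, hb1, hb2, hb3⟩ := hT (C ∩ B) (All.ci ν C B hν hC hB1)
        refine ⟨b, hb, hb1.1, ⟨hb2, ?_⟩, hb3⟩
        obtain ⟨i, hi, rfl⟩ := he b hb1.2
        have := hs2 i hi
        simpa only [hb2, hb, and_self, if_true] using this
      · -- cofinal sequence
        obtain ⟨g, hg1, -, hg2⟩ := Pool.Agent.H2.HD.UV.exists_seq hηl
        by_contra hcon
        push Not at hcon
        refine All.va μ ν hν η.cof.ord (by rw [Cardinal.card_ord]; exact hgt)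
          (fun i => {a | a ∈ T ∧ idx a ≤ g i}) (fun i hi => hcon (g i) (hg1 i hi)) ?_
        refine hT.mono fun a ha haT _ => ?_
        obtain ⟨i, hi, hi2⟩ := hg2 (idx a) (hidx a haT ha)
        exact ⟨i, hi, haT, hi2.le⟩

/-- `LU` at one point -/
theorem lu_at {en : Ordinal.{u} → ZFSet.{u}} (hen : EN en)
    (hF : DO fun w => w 2 = af en (w 1) (w 0)) {μ ν c f : Ordinal.{u}} {e m : Ordinal.{u} → Ordinal.{u}}
    {A : Ordinal.{u} → Prop} {η : Ordinal.{u}} (hν : ℵ₀ < ν.cof)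
    (hult : ∀ x, ¬ (Pos μ ν (E en c ∩ E en x) ∧ Pos μ ν (E en c \ E en x)))
    (hb1 : ¬ Pos μ ν {a | a ∈ E en c ∧ ∃ i s, i ≤ s ∧ s < η ∧ s < a ∧ A i ∧
      af en (e (m s)) a < af en (e i) a})
    (hb2 : ¬ Pos μ ν {a | a ∈ E en c ∧ ∃ i, i < η ∧ i < a ∧ A i ∧ af en f a ≤ af en (e i) a})
    (hm1 : ∀ s < η, m s < η ∧ A (m s)) (hm2 : ∀ s < η, s < ν → m s < ν)
    (hst : ∀ (T : Set Ordinal.{u}) (idx : Ordinal.{u} → Ordinal.{u}), Pos μ ν T →
      (∀ a ∈ T, a < ν → idx a < η ∧ idx a < a) →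
        ∃ s < η, s < ν ∧ Pos μ ν {a | a ∈ T ∧ idx a ≤ s}) :
    (∀ i < η, i < ν → A i →
      Lw μ ν (E en c) (af en (e i)) (hh A (fun i => af en (e i)) (af en f) η)) ∧
    LU en μ ν (E en c) (hh A (fun i => af en (e i)) (af en f) η) := by
  have hνl : IsSuccLimit ν := by
    rw [← Ordinal.one_lt_cof_iff]
    exact Cardinal.one_lt_aleph0.trans hν
  have hlw : ∀ i < η, i < ν → A i →
      Lw μ ν (E en c) (af en (e i)) (hh A (fun i => af en (e i)) (af en f) η) := by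
    intro i hi hiν hA h
    refine null_union All.va hν hb2 (All.vb μ ν (i + 1) hνl (hνl.add_one_lt hiν))
      (h.mono fun a ha ha1 _ => ?_)
    by_cases hai : a < i + 1
    · exact Or.inr hai
    · left
      have hia : i < a := lt_of_lt_of_le (_root_.lt_add_one i) (not_lt.1 hai)
      refine ⟨ha1.1, i, hi, hia, hA, ?_⟩
      by_contra hcon
      have := lt_hh (F := fun i => af en (e i)) (f := af en f) hi hia hA (not_le.1 hcon)
      exact absurd ha1.2 (not_le.2 this)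
  refine ⟨hlw, fun g g' => cmp_of hen hF hult g g', ⟨f, fun a _ => hh_le _ _ _ _ _⟩, ?_⟩
  intro T k hT hTk
  have hex : ∀ a ∈ T, a < ν → ∃ i, i < η ∧ i < a ∧ A i ∧ af en (e i) a < af en f a ∧
      k a ≤ af en (e i) a := fun a ha haν => ex_of_lt_hh (hTk a ha haν).2
  choose! idx hi1 hi2 hi3 hi4 hi5 using hex
  obtain ⟨s, hs1, hs2, hs3⟩ := hst T idx hT (fun a ha haν => ⟨hi1 a ha haν, hi2 a ha haν⟩)
  refine ⟨e (m s), hlw (m s) (hm1 s hs1).1 (hm2 s hs1 hs2) (hm1 s hs1).2, ?_⟩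
  have h2 := pos_diff All.va hν (pos_diff All.va hν hs3 hb1)
    (All.vb μ ν (s + 1) hνl (hνl.add_one_lt hs2))
  refine h2.mono fun a ha ha1 _ => ⟨ha1.1.1.1, (hi5 a ha1.1.1.1 ha).trans ?_⟩
  by_contra hcon
  refine ha1.1.2 ⟨(hTk a ha1.1.1.1 ha).1, idx a, s, ha1.1.1.2, hs1, ?_, hi3 a ha1.1.1.1 ha,
    not_le.1 hcon⟩
  have h3 : ¬ a < s + 1 := ha1.2
  exact lt_of_lt_of_le (_root_.lt_add_one s) (not_lt.1 h3)

/-- Fodor's theorem in the form used here: if all `P i` are null then the diagonal union is -/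
theorem diag {μ : Ordinal.{u}} {K : Cardinal.{u}} (hK : K.IsRegular) (hK0 : ℵ₀ < K)
    {P : Ordinal.{u} → Ordinal.{u} → Prop} (h : ∀ i < K.ord, ¬ Pos μ K.ord {a | P i a}) :
    ¬ Pos μ K.ord {a | ∃ i < a, P i a} := by
  intro hpos
  have hex : ∀ a ∈ {a | ∃ i < a, P i a}, ∃ i, i < a ∧ P i a := fun a ha => ha
  choose! g hg1 hg2 using hex
  obtain ⟨i, hi, hp⟩ := All.vd μ K hK hK0 _ g hpos (fun b hb _ _ => hg1 b hb)
  refine h i hi (hp.mono fun b _ hb _ => ?_)
  obtain ⟨hb1, rfl⟩ := hb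
  exact hg2 b hb1

theorem X (hFD : T_FD.{u}) : T_LF.{u} := by
  classical
  intro en K c f e hen hK hK0 hat he
  have hF := (hFD en hen).1
  have hκ : K.ord.cof = K := hK.cof_ord
  have hκ0 : ℵ₀ < K.ord.cof := by rw [hκ]; exact hK0
  have hKl : IsSuccLimit K.ord := Cardinal.isSuccLimit_ord hK0.le
  set μ : Ordinal.{u} := (ℵ₀ : Cardinal.{u}).ord with hμ
  set S := E en c with hS
  let A : Ordinal.{u} → Prop := fun i => Lw μ K.ord S (af en (e i)) (af en f)
  have hcmp := fun g g' => cmp_of hen hF (μ := μ) (ν := K.ord) (S := S) hat.ult g g'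
  -- comparability
  have hcm1 : ∀ g g', Pos μ K.ord {a | a ∈ S ∧ af en g' a ≤ af en g a} →
      ¬ Pos μ K.ord {a | a ∈ S ∧ af en g a < af en g' a} := fun g g' h1 h2 => hcmp g g' ⟨h2, h1⟩
  have hcm2 : ∀ g g', Pos μ K.ord {a | a ∈ S ∧ af en g a < af en g' a} →
      ¬ Pos μ K.ord {a | a ∈ S ∧ af en g' a ≤ af en g a} := fun g g' h1 h2 => hcmp g g' ⟨h1, h2⟩
  -- the length
  let Q : Set Ordinal.{u} := {η | ¬ ∃ g, Lw μ K.ord S (af en g) (af en f) ∧
    ∀ i < η, A i → Lw μ K.ord S (af en (e i)) (af en g)}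
  have hQK : K.ord ∈ Q := by
    rintro ⟨g, hg1, hg2⟩
    obtain ⟨i, hi, hi2⟩ := he g hg1
    have hAi : A i := by
      intro h
      refine null_union All.va hκ0 hi2 hg1 (h.mono fun a _ ha _ => ?_)
      by_cases hne : af en (e i) a = af en g a
      · right
        exact ⟨ha.1, by rw [← hne]; exact ha.2⟩
      · exact Or.inl ⟨ha.1, hne⟩
    refine null_union All.va hκ0 hi2 (hg2 i hi hAi) (hat.pos.mono fun a _ ha _ => ?_)
    by_cases hne : af en (e i) a = af en g a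
    · right
      exact ⟨ha, hne.ge⟩
    · exact Or.inl ⟨ha, hne⟩
  obtain ⟨η, hηQ, hηmin⟩ : ∃ η ∈ Q, ∀ x < η, x ∉ Q := by
    refine ⟨sInf Q, csInf_mem ⟨_, hQK⟩, fun x hx h => absurd (csInf_le' h) (not_le.2 hx)⟩
  have hηK : η ≤ K.ord := by
    by_contra h
    exact hηmin _ (not_le.1 h) hQK
  -- every function below `f` is below some `e i`, `i < η`
  have htop : ∀ g, Lw μ K.ord S (af en g) (af en f) → ∃ i < η, A i ∧
      ¬ Pos μ K.ord {a | a ∈ S ∧ af en (e i) a < af en g a} := by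
    intro g hg
    by_contra hcon
    push Not at hcon
    refine hηQ ⟨g, hg, fun i hi hA h => ?_⟩
    exact hcm1 (e i) g h (hcon i hi hA)
  -- the function `m`
  have hmex : ∀ s < η, ∃ m < η, A m ∧
      ∀ i ≤ s, A i → ¬ Pos μ K.ord {a | a ∈ S ∧ af en (e m) a < af en (e i) a} := by
    intro s hs
    have h1 := hηmin s hs
    have h2 : ∃ g, Lw μ K.ord S (af en g) (af en f) ∧
      ∀ i < s, A i → Lw μ K.ord S (af en (e i)) (af en g) := by
      by_contra h
      exact h1 h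
    obtain ⟨g, hg1, hg2⟩ := h2
    obtain ⟨j, hj, hAj, hj2⟩ := htop g hg1
    by_cases hcase : A s ∧ Pos μ K.ord {a | a ∈ S ∧ af en (e j) a < af en (e s) a}
    · refine ⟨s, hs, hcase.1, fun i hi hAi h => ?_⟩
      rcases hi.lt_or_eq with hi | rfl
      · refine null_union All.va hκ0 (null_union All.va hκ0 (hg2 i hi hAi) hj2)
          (hcm2 _ _ hcase.2) (h.mono fun a _ ha _ => ?_)
        by_cases h1 : af en g a ≤ af en (e i) a
        · exact Or.inl (Or.inl ⟨ha.1, h1⟩)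
        by_cases h2 : af en (e j) a < af en g a
        · exact Or.inl (Or.inr ⟨ha.1, h2⟩)
        right
        refine ⟨ha.1, ?_⟩
        exact ((ha.2.trans (not_le.1 h1)).trans_le (not_lt.1 h2)).le
      · obtain ⟨b, -, -, hb, -⟩ := h univ (Pool.Agent.H59.HD.SV.clb_univ hK0)
        exact lt_irrefl _ hb.2
    · refine ⟨j, hj, hAj, fun i hi hAi h => ?_⟩
      rcases hi.lt_or_eq with hi | rfl
      · refine null_union All.va hκ0 (hg2 i hi hAi) hj2 (h.mono fun a _ ha _ => ?_)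
        by_cases h1 : af en g a ≤ af en (e i) a
        · exact Or.inl ⟨ha.1, h1⟩
        · exact Or.inr ⟨ha.1, ha.2.trans (not_le.1 h1)⟩
      · exact hcase ⟨hAi, h⟩
  choose! m hm1 hm2 hm3 using hmex
  -- the bad sets
  have hb1 : ¬ Pos μ K.ord {a | a ∈ S ∧ ∃ i s, i ≤ s ∧ s < η ∧ s < a ∧ A i ∧
      af en (e (m s)) a < af en (e i) a} := by
    have h1 := diag (μ := μ) hK hK0 (P := fun s a => ∃ i < a, i ≤ s ∧ s < η ∧ A i ∧ a ∈ S ∧
      af en (e (m s)) a < af en (e i) a) fun s _ => by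
        refine diag (μ := μ) hK hK0 (P := fun i a => i ≤ s ∧ s < η ∧ A i ∧ a ∈ S ∧
          af en (e (m s)) a < af en (e i) a) fun i _ h => ?_
        obtain ⟨b, -, -, hb, -⟩ := h univ (Pool.Agent.H59.HD.SV.clb_univ hK0)
        exact hm3 s hb.2.1 i hb.1 hb.2.2.1 (h.mono fun a _ ha _ => ha.2.2.2)
    intro h
    refine h1 (h.mono fun a _ ha _ => ?_)
    obtain ⟨haS, i, s, his, hsη, hsa, hA, hlt⟩ := ha
    exact ⟨s, hsa, i, his.trans_lt hsa, his, hsη, hA, haS, hlt⟩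
  have hb2 : ¬ Pos μ K.ord {a | a ∈ S ∧ ∃ i, i < η ∧ i < a ∧ A i ∧
      af en f a ≤ af en (e i) a} := by
    have h1 := diag (μ := μ) hK hK0 (P := fun i a => A i ∧ a ∈ S ∧
      af en f a ≤ af en (e i) a) fun i _ h => by
        obtain ⟨b, -, -, hb, -⟩ := h univ (Pool.Agent.H59.HD.SV.clb_univ hK0)
        exact hb.1 (h.mono fun a _ ha _ => ha.2)
    intro h
    refine h1 (h.mono fun a _ ha _ => ?_)
    obtain ⟨haS, i, hi, hia, hA, hle⟩ := ha
    exact ⟨i, hia, hA, haS, hle⟩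
  -- the club
  have hbb := null_union All.va hκ0 hb1 hb2
  unfold Pos at hbb
  push Not at hbb
  obtain ⟨Cb, hCb, hCb2⟩ := hbb
  have hgex : ∀ y < K.ord, ∃ z < K.ord, y < z ∧ z ∈ Cb := fun y hy => hCb.unb y hy
  choose! g hg1 hg2 hg3 using hgex
  let η1 : Ordinal.{u} := if η = K.ord then 0 else η
  have hη1 : η1 < K.ord := by
    by_cases h : η = K.ord
    · simp only [η1, h, if_true]
      exact hKl.bot_lt
    · simp only [η1, h, if_false]
      exact lt_of_le_of_ne hηK h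
  let m' : Ordinal.{u} → Ordinal.{u} := fun s => if s < η then m s else 0
  have hm' : ∀ s, m' s < K.ord := by
    intro s
    by_cases h : s < η
    · simp only [m', h, if_true]
      exact (hm1 s h).trans_le hηK
    · simp only [m', h, if_false]
      exact hKl.bot_lt
  have hC := All.ve K hK hK0 (fun y => max (g y) (max (m' y) η1))
    (fun y hy => max_lt (hg1 y hy) (max_lt (hm' y) hη1))
  refine ⟨hh A (fun i => af en (e i)) (af en f) η, if η = K.ord then 0 else η.cof.ord, _,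
    fun a => hh_le _ _ _ _ _, ?_, ?_, hC, ?_⟩
  all_goals
    have hLK := lu_at hen hF (μ := μ) (ν := K.ord) (c := c) (f := f) (e := e) (m := m) (A := A)
      (η := η) hκ0 hat.ult hb1 hb2 (fun s hs => ⟨hm1 s hs, hm2 s hs⟩)
      (fun s hs _ => (hm1 s hs).trans_le hηK) (fun T idx hT hidx => by
        rcases hηK.lt_or_eq with h | h
        · obtain ⟨s, hs, hs2⟩ := star (μ := μ) hκ0 h (fun heq => by
            rw [hκ] at heq
            have h1 : η.cof ≤ η.card := Ordinal.cof_le_card η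
            have h2 : η.card < K := Cardinal.lt_ord.1 h
            exact absurd (heq ▸ h1) (not_le.2 h2)) hT (fun a ha haν => (hidx a ha haν).1)
          exact ⟨s, hs, hs.trans h, hs2⟩
        · obtain ⟨s, hs, hs2⟩ := All.uv μ K.ord hκ0 T idx hT (fun b hb hbK _ => (hidx b hb hbK).2)
          exact ⟨s, by rw [h]; exact hs, hs, hs2.mono fun b _ hb _ => ⟨hb.1, hb.2.le⟩⟩)
  · intro k hk h
    obtain ⟨i, hi, hA, hi2⟩ := htop k hk
    refine null_union All.va hκ0 (hLK.1 i hi (hi.trans_le hηK) hA) hi2 (h.mono fun a _ ha _ => ?_)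
    by_cases h1 : af en (e i) a < af en k a
    · exact Or.inr ⟨ha.1, h1⟩
    · exact Or.inl ⟨ha.1, ha.2.trans (not_lt.1 h1)⟩
  · exact hLK.2
  · intro ν hν hνK hνc hνθ hult
    have hν0 : 0 < ν := hν.1
    have hν1 : ∀ y < ν, g y < ν := fun y hy => (le_max_left _ _).trans_lt (hν.2 y hy)
    have hν2 : ∀ y < ν, m' y < ν := fun y hy =>
      ((le_max_left _ _).trans (le_max_right _ _)).trans_lt (hν.2 y hy)
    have hν3 : η1 < ν := ((le_max_right _ _).trans (le_max_right _ _)).trans_lt (hν.2 0 hν0)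
    have hCbν : Clb ν Cb := ⟨fun a ha => ⟨g a, hν1 a ha, hg2 a (ha.trans hνK),
      hg3 a (ha.trans hνK)⟩, fun x hx h0 h => hCb.cls x (hx.trans hνK) h0 h⟩
    have hnb : ¬ Pos μ ν ({a | a ∈ S ∧ ∃ i s, i ≤ s ∧ s < η ∧ s < a ∧ A i ∧
        af en (e (m s)) a < af en (e i) a} ∪ {a | a ∈ S ∧ ∃ i, i < η ∧ i < a ∧ A i ∧
        af en f a ≤ af en (e i) a}) := by
      intro h
      obtain ⟨b, hb, hb1, hb2, hb3⟩ := h Cb hCbν
      exact hCb2 b (hb.trans hνK) hb1 hb2 hb3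
    refine (lu_at hen hF (μ := μ) (ν := ν) (c := c) (f := f) (e := e) (m := m) (A := A)
      (η := η) hνc hult (fun h => hnb (h.mono fun a _ ha _ => Or.inl ha))
      (fun h => hnb (h.mono fun a _ ha _ => Or.inr ha)) (fun s hs => ⟨hm1 s hs, hm2 s hs⟩)
      (fun s hs hsν => ?_) (fun T idx hT hidx => ?_)).2
    · have := hν2 s hsν
      simpa only [m', hs, if_true] using this
    · rcases hηK.lt_or_eq with h | h
      · have hην : η < ν := by simpa only [η1, h.ne, if_false] using hν3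
        obtain ⟨s, hs, hs2⟩ := star (μ := μ) hνc hην (fun heq => by
          refine hνθ ?_
          rw [if_neg h.ne, heq]) hT (fun a ha haν => (hidx a ha haν).1)
        exact ⟨s, hs, hs.trans hην, hs2⟩
      · obtain ⟨s, hs, hs2⟩ := All.uv μ ν hνc T idx hT (fun b hb hbK _ => (hidx b hb hbK).2)
        exact ⟨s, by rw [h]; exact hs.trans hνK, hs, hs2.mono fun b _ hb _ => ⟨hb.1, hb.2.le⟩⟩

end Pool.Agent.H7.HD9.LF
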