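import Pool.Agent.H7.HD.Targets10
import Pool.Agent.H7.HD9.AB
import Pool.Agent.H7.HD9.GR
import Pool.Agent.H7.HD9.LF
import Pool.Agent.H18.HD9.AC
import Pool.Agent.H18.HD9.CH
import Pool.Agent.H66.HD9.EK
import Pool.Agent.H66.HD9.WF
import Pool.Agent.H34.HD9.BB
import Pool.Agent.H34.HD9.PH
import Pool.Agent.H34.HD9.Y3
import Pool.Agent.H54.NF.GE
import Pool.Agent.H49.HD9.GO
import Pool.Agent.H60.HD9.IX
import Pool.Agent.H60.HD9.VS
import Pool.Agent.H81.HD9.LW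
import Pool.Agent.H81.HD9.RW
import Pool.Agent.H77.HD9.NP
import Pool.Agent.H77.HD9.SH
import Pool.Agent.H35.HD9.OC
import Pool.Agent.H65.HD9.Y1

/-!
# Assembly of the ninth and tenth lists of modules
-/

open Ordinal Cardinal Order Set
open scoped ZFSet

universe u

namespace HD

namespace All

theorem gr : Pool.Agent.H7.HD9.T_GR.{u} :=
  Pool.Agent.H7.HD9.gr Pool.Agent.H54.NF.GE.X (Pool.Agent.H81.HD9.RW.X Pool.Agent.H81.HD9.LW.X)
theorem bA : T_B1.{u} := Pool.Agent.H66.HD9.BA.X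
theorem bB : T_B2.{u} := Pool.Agent.H34.HD9.BB.bb
theorem fdd : T_FD.{u} := Pool.Agent.H66.HD9.FN.X
theorem wf : T_WF.{u} := Pool.Agent.H66.HD9.WF.X
theorem ce : T_CE.{u} := Pool.Agent.H66.HD9.CE.X wf
theorem cu : T_CU.{u} := Pool.Agent.H66.HD9.CU.X
theorem lff : T_LF.{u} := Pool.Agent.H7.HD9.LF.X fdd
theorem ek : T_EK.{u} := Pool.Agent.H66.HD9.EK.X
theorem pk : T_PK.{u} := Pool.Agent.H66.HD9.PK.X
theorem ef : T_EF.{u} := Pool.Agent.H66.HD9.EF.X ek fdd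
theorem ix : T_IX.{u} := Pool.Agent.H60.HD9.IX.ix
theorem ch : T_CH.{u} := Pool.Agent.H18.HD9.CH.ch ix
theorem ab : T_AB.{u} := Pool.Agent.H7.HD9.AB.X

/-- VF from the base, given the definability of the class and LX -/
theorem vf_of (hCD : T_CD.{u}) (hLX : T_LX.{u}) : T_AC.{u} := by
  have hPH : T_PH.{u} := Pool.Agent.H34.HD9.PH.ph ce cu hCD
  have hSH : T_SH.{u} := Pool.Agent.H77.HD9.SH.sh ce cu hCD Pool.Agent.H48.HD.SR.sr
    (Pool.Agent.H33.HD.NA.na vg) ub Pool.Agent.H92.HD.pc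
  have hGO : T_GO.{u} := Pool.Agent.H49.HD9.GO.X hSH ab hPH ix fdd pk
  have hOC : T_OC.{u} := Pool.Agent.H35.HD9.OC.X lff ef hLX hGO ch ix wf fdd pk
  exact Pool.Agent.H18.HD9.AC.ac hOC ek

end All

end HD
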