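import Pool.Agent.H7.HD.Targets10
import Pool.Agent.H7.HD.All8

/-!
# The embeddings do not exist at the successor of `γ` if HOD computes it correctly
-/

open Ordinal Cardinal Order Set
open scoped ZFSet
open _root_.HD

universe u

namespace Pool.Agent.H7.HD9.Z1

/-- universal quantifier -/
def al (φ : Fml) : Fml := .neg (.ex (.neg φ))
/-- implication -/
def im (φ ψ : Fml) : Fml := .neg (.and φ (.neg ψ))

theorem sat_al (M : ZFSet.{u} → Prop) (φ : Fml) (v : ℕ → ZFSet.{u}) :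
    Sat M (al φ) v ↔ ∀ x, M x → Sat M φ (cons x v) := by
  show ¬ (∃ x, M x ∧ ¬ Sat M φ (cons x v)) ↔ _
  push Not
  rfl

theorem sat_im (M : ZFSet.{u} → Prop) (φ ψ : Fml) (v : ℕ → ZFSet.{u}) :
    Sat M (im φ ψ) v ↔ (Sat M φ v → Sat M ψ v) := by
  show ¬ (Sat M φ v ∧ ¬ Sat M ψ v) ↔ _
  tauto

/-- `v 0` has no greatest element -/
def f0 : Fml := al (im (.mem 0 1) (.ex (.and (.mem 0 2) (.mem 1 0))))

theorem sat_f0 (M : ZFSet.{u} → Prop) (v : ℕ → ZFSet.{u}) :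
    Sat M f0 v ↔ ∀ x, M x → x ∈ v 0 → ∃ y, M y ∧ y ∈ v 0 ∧ x ∈ y := by
  unfold f0
  rw [sat_al]
  refine forall_congr' fun x => imp_congr_right fun _ => ?_
  rw [sat_im]
  rfl

/-- every element of `v 2` which is not in `v 1` is in an element of `v 0` which meets `v 1` -/
def f1 : Fml := al (im (.mem 0 3) (im (.neg (.mem 0 2)) (.ex (.and (.mem 0 3) (.ex (.and (.mem 0 3)
  (.and (.mem 1 0) (.mem 2 0))))))))

theorem sat_f1 (M : ZFSet.{u} → Prop) (v : ℕ → ZFSet.{u}) :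
    Sat M f1 v ↔ ∀ b, M b → b ∈ v 2 → b ∉ v 1 → ∃ a, M a ∧ a ∈ v 1 ∧ ∃ p, M p ∧ p ∈ v 0 ∧
      a ∈ p ∧ b ∈ p := by
  unfold f1
  rw [sat_al]
  refine forall_congr' fun b => imp_congr_right fun _ => ?_
  rw [sat_im, sat_im]
  rfl

/-- functionality -/
def f2 : Fml := al (al (al (al (al (im (.mem 4 6) (im (.mem 1 5) (im (.mem 0 5) (im (.mem 4 1)
  (im (.mem 4 0) (im (.mem 3 1) (im (.mem 2 0) (im (.neg (.mem 3 6)) (im (.neg (.mem 2 6))
  (.eq 3 2))))))))))))))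

theorem sat_f2 (M : ZFSet.{u} → Prop) (v : ℕ → ZFSet.{u}) :
    Sat M f2 v ↔ ∀ a, M a → ∀ b, M b → ∀ b', M b' → ∀ p, M p → ∀ p', M p' → a ∈ v 1 → p ∈ v 0 →
      p' ∈ v 0 → a ∈ p → a ∈ p' → b ∈ p → b' ∈ p' → b ∉ v 1 → b' ∉ v 1 → b = b' := by
  unfold f2
  rw [sat_al]
  refine forall_congr' fun a => imp_congr_right fun _ => ?_
  rw [sat_al]
  refine forall_congr' fun b => imp_congr_right fun _ => ?_
  rw [sat_al]
  refine forall_congr' fun b' => imp_congr_right fun _ => ?_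
  rw [sat_al]
  refine forall_congr' fun p => imp_congr_right fun _ => ?_
  rw [sat_al]
  refine forall_congr' fun p' => imp_congr_right fun _ => ?_
  rw [sat_im, sat_im, sat_im, sat_im, sat_im, sat_im, sat_im, sat_im, sat_im]
  rfl

theorem vh_ord {ξ a : Ordinal.{u}} (h : a ≤ ξ) : VH ξ a.toZFSet := by
  refine ⟨HOD.ordinal a, fun z hz => ?_⟩
  obtain ⟨b, hb, rfl⟩ := mem_toZFSet_iff.1 hz
  rw [ZFSet.mem_vonNeumann, rank_toZFSet]
  exact hb.trans_le h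

/-- the unordered pairs -/
noncomputable def up (f : ZFSet.{u}) (γ ξ : Ordinal.{u}) : ZFSet.{u} :=
  ZFSet.sep (fun p => ∃ a b : Ordinal.{u}, a < γ ∧ γ ≤ b ∧ b < ξ ∧
    ZFSet.pair a.toZFSet b.toZFSet ∈ f ∧ p = {a.toZFSet, b.toZFSet}) (V_ (succ ξ))

theorem mem_up {f : ZFSet.{u}} {γ ξ : Ordinal.{u}} {p : ZFSet.{u}} :
    p ∈ up f γ ξ ↔ ∃ a b : Ordinal.{u}, a < γ ∧ γ ≤ b ∧ b < ξ ∧
      ZFSet.pair a.toZFSet b.toZFSet ∈ f ∧ p = {a.toZFSet, b.toZFSet} := by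
  unfold up
  rw [ZFSet.mem_sep]
  refine ⟨fun h => h.2, fun h => ⟨?_, h⟩⟩
  obtain ⟨a, b, h1, h2, h3, -, rfl⟩ := h
  rw [ZFSet.mem_vonNeumann, Order.lt_succ_iff, ZFSet.rank_le_iff]
  intro y hy
  rcases ZFSet.mem_pair.1 hy with rfl | rfl
  · rw [rank_toZFSet]; exact h1.trans_le (h2.trans h3.le)
  · rw [rank_toZFSet]; exact h3

theorem hod_up {f : ZFSet.{u}} (hf : HOD f) (γ ξ : Ordinal.{u}) : HOD (up f γ ξ) := by
  refine hod_iff.2 ⟨?_, fun p hp => ?_⟩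
  · refine OD.of_mem (P := fun v => ∃ a ∈ γ.toZFSet, ∃ b ∈ ξ.toZFSet, b ∉ γ.toZFSet ∧
      ZFSet.pair a b ∈ f ∧ v 0 = {a, b}) ?_ fun v => ?_
    · refine DZ.od (R := fun g v => ∃ a ∈ g, ∃ b ∈ ξ.toZFSet, b ∉ g ∧
        ZFSet.pair a b ∈ f ∧ v 0 = {a, b}) (OD.ordinal γ) ?_
      refine DZ.od (R := fun x v => ∃ a ∈ v 0, ∃ b ∈ x, b ∉ v 0 ∧
        ZFSet.pair a b ∈ f ∧ v 1 = {a, b}) (OD.ordinal ξ) ?_
      refine DZ.od (R := fun F v => ∃ a ∈ v 1, ∃ b ∈ v 0, b ∉ v 1 ∧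
        ZFSet.pair a b ∈ F ∧ v 2 = {a, b}) hf.od ?_
      refine DZ.exMem (R := fun a v => ∃ b ∈ v 1, b ∉ v 2 ∧
        ZFSet.pair a b ∈ v 0 ∧ v 3 = {a, b}) 2 ?_
      refine DZ.exMem (R := fun b v => b ∉ v 3 ∧
        ZFSet.pair (v 0) b ∈ v 1 ∧ v 4 = {v 0, b}) 2 ?_
      exact DZ.and (DZ.mem 0 4).not (DZ.and (loc_pmem 1 0 2).dz (loc_upair 5 1 0).dz)
    · rw [mem_up]
      constructor
      · rintro ⟨x, hx, y, hy, hbg, hp, he⟩
        obtain ⟨a, ha, rfl⟩ := mem_toZFSet_iff.1 hx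
        obtain ⟨b, hb, rfl⟩ := mem_toZFSet_iff.1 hy
        exact ⟨a, b, ha, not_lt.1 fun h => hbg (toZFSet_mem_toZFSet_iff.2 h), hb, hp, he⟩
      · rintro ⟨a, b, ha, hgb, hb, hp, he⟩
        exact ⟨_, toZFSet_mem_toZFSet_iff.2 ha, _, toZFSet_mem_toZFSet_iff.2 hb,
          fun h => absurd (toZFSet_mem_toZFSet_iff.1 h) (not_lt.2 hgb), hp, he⟩
  · obtain ⟨a, b, -, -, -, -, rfl⟩ := mem_up.1 hp
    exact (HOD.ordinal a).upair (HOD.ordinal b)

theorem z1 (γ : Cardinal.{u}) (hγ : ℵ₀ ≤ γ) (ξ : Ordinal.{u}) (h1 : γ.ord < ξ)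
    (h : OntoHOD γ.ord ξ) : ¬ ∃ j, HEmb ξ (succ γ).ord j := by
  rintro ⟨j, hj⟩
  set κ := (succ γ).ord with hκ
  have hκl : IsSuccLimit κ := Cardinal.isSuccLimit_ord (hγ.trans (le_succ γ))
  have hel : ∀ (φ : Fml) (l : List ZFSet.{u}), (∀ x ∈ l, VH ξ x) →
      (Sat (VH ξ) φ (fun n => l.getD n ξ.toZFSet) ↔
        Sat (VH κ) φ (fun n => (l.map j).getD n κ.toZFSet)) := by
    intro φ l hl
    have h2 := hj.elem φ (fun n => l.getD n ξ.toZFSet) (fun n => by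
      rcases Nat.lt_or_ge n l.length with hn | hn
      · rw [List.getD_eq_getElem _ _ hn]
        exact hl _ (List.getElem_mem hn)
      · rw [List.getD_eq_default _ _ hn]
        exact vh_ord le_rfl)
    rw [h2]
    have h3 : (j ∘ fun n => l.getD n ξ.toZFSet) = fun n => (l.map j).getD n κ.toZFSet := by
      funext n
      show j (l.getD n ξ.toZFSet) = _
      rw [← hj.crit]
      rcases Nat.lt_or_ge n l.length with hn | hn
      · rw [List.getD_eq_getElem _ _ hn, List.getD_eq_getElem _ _ (by simpa using hn)]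
        simp
      · rw [List.getD_eq_default _ _ hn, List.getD_eq_default _ _ (by simpa using hn)]
    rw [h3]
  -- `ξ` is a limit ordinal
  have hξl : ∀ b < ξ, b + 1 < ξ := by
    intro b hb
    have h2 : Sat (VH ξ) f0 (fun n => ([] : List ZFSet.{u}).getD n ξ.toZFSet) := by
      rw [hel f0 [] (by simp), sat_f0]
      intro x _ hx
      obtain ⟨a, ha, rfl⟩ := mem_toZFSet_iff.1 (show x ∈ κ.toZFSet from hx)
      have ha1 : a + 1 < κ := hκl.add_one_lt ha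
      exact ⟨(a + 1).toZFSet, vh_ord ha1.le, toZFSet_mem_toZFSet_iff.2 ha1,
        toZFSet_mem_toZFSet_iff.2 (_root_.lt_add_one a)⟩
    rw [sat_f0] at h2
    obtain ⟨y, -, hy, hby⟩ := h2 b.toZFSet (vh_ord hb.le) (toZFSet_mem_toZFSet_iff.2 hb)
    obtain ⟨c, hc, rfl⟩ := mem_toZFSet_iff.1 (show y ∈ ξ.toZFSet from hy)
    have hbc := toZFSet_mem_toZFSet_iff.1 hby
    exact lt_of_le_of_lt (Order.add_one_le_of_lt hbc) hc
  obtain ⟨f, hf, hfn, hon⟩ := h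
  set F := up f γ.ord ξ with hF
  have hFV : VH ξ F := by
    refine ⟨hod_up hf _ _, fun p hp => ?_⟩
    obtain ⟨a, b, ha, hgb, hb, -, rfl⟩ := mem_up.1 hp
    rw [ZFSet.mem_vonNeumann]
    refine lt_of_le_of_lt (b := b + 1) ?_ (hξl b hb)
    rw [ZFSet.rank_le_iff]
    intro y hy
    rcases ZFSet.mem_pair.1 hy with rfl | rfl
    · rw [rank_toZFSet]; exact (ha.trans_le hgb).trans (_root_.lt_add_one b)
    · rw [rank_toZFSet]; exact _root_.lt_add_one b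
  have hγV : VH ξ γ.ord.toZFSet := vh_ord h1.le
  have hjγ : j γ.ord.toZFSet = γ.ord.toZFSet := hj.fix _ (HOD.ordinal _) (by
    rw [ZFSet.mem_vonNeumann, rank_toZFSet]; exact h1)
  have hl : ∀ x ∈ [F, γ.ord.toZFSet], VH ξ x := by
    intro x hx
    rcases List.mem_cons.1 hx with rfl | hx
    · exact hFV
    · rw [List.mem_singleton.1 hx]; exact hγV
  -- transfer
  have hA := (hel f1 [F, γ.ord.toZFSet] hl).1 (by
    rw [sat_f1]
    intro y _ hy hbg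
    obtain ⟨b, hb, rfl⟩ := mem_toZFSet_iff.1 (show y ∈ ξ.toZFSet from hy)
    have hgb : γ.ord ≤ b := not_lt.1 fun h => hbg (toZFSet_mem_toZFSet_iff.2 h)
    obtain ⟨a, ha, hab⟩ := hon b hb
    have hp : ({a.toZFSet, b.toZFSet} : ZFSet.{u}) ∈ F := mem_up.2 ⟨a, b, ha, hgb, hb, hab, rfl⟩
    refine ⟨a.toZFSet, vh_ord (ha.trans h1).le, toZFSet_mem_toZFSet_iff.2 ha, _, ?_, hp,
      ZFSet.mem_pair.2 (Or.inl rfl), ZFSet.mem_pair.2 (Or.inr rfl)⟩
    refine ⟨(HOD.ordinal a).upair (HOD.ordinal b), fun z hz => ?_⟩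
    rcases ZFSet.mem_pair.1 hz with rfl | rfl
    · rw [ZFSet.mem_vonNeumann, rank_toZFSet]; exact ha.trans h1
    · rw [ZFSet.mem_vonNeumann, rank_toZFSet]; exact hb)
  have hB := (hel f2 [F, γ.ord.toZFSet] hl).1 (by
    rw [sat_f2]
    intro a _ b _ b' _ p _ p' _ ha hp hp' hap hap' hbp hbp' hbg hbg'
    obtain ⟨a1, b1, ha1, hgb1, hb1, hf1, rfl⟩ := mem_up.1 (show p ∈ F from hp)
    obtain ⟨a2, b2, ha2, hgb2, hb2, hf2, rfl⟩ := mem_up.1 (show p' ∈ F from hp')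
    have hn : ∀ c, γ.ord ≤ c → c.toZFSet ∉ γ.ord.toZFSet :=
      fun c hc h => absurd (toZFSet_mem_toZFSet_iff.1 h) (not_lt.2 hc)
    have e1 : a = a1.toZFSet := by
      rcases ZFSet.mem_pair.1 hap with h | h
      · exact h
      · rw [h] at ha; exact absurd ha (hn _ hgb1)
    have e2 : a = a2.toZFSet := by
      rcases ZFSet.mem_pair.1 hap' with h | h
      · exact h
      · rw [h] at ha; exact absurd ha (hn _ hgb2)
    have e3 : b = b1.toZFSet := by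
      rcases ZFSet.mem_pair.1 hbp with h | h
      · rw [h] at hbg; exact absurd (toZFSet_mem_toZFSet_iff.2 ha1) hbg
      · exact h
    have e4 : b' = b2.toZFSet := by
      rcases ZFSet.mem_pair.1 hbp' with h | h
      · rw [h] at hbg'; exact absurd (toZFSet_mem_toZFSet_iff.2 ha2) hbg'
      · exact h
    rw [e3, e4]
    rw [← e1] at hf1
    rw [← e2] at hf2
    obtain ⟨w, -, hw⟩ := hfn.2 a (by rw [e1]; exact toZFSet_mem_toZFSet_iff.2 ha1)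
    rw [hw _ hf1, hw _ hf2])
  rw [sat_f1] at hA
  rw [sat_f2] at hB
  have hA' : ∀ b, γ.ord ≤ b → b < κ → ∃ a < γ.ord, ∃ p, VH κ p ∧ p ∈ j F ∧ a.toZFSet ∈ p ∧
      b.toZFSet ∈ p := by
    intro b hgb hb
    obtain ⟨y, -, hy, p, hp, hp1, hp2, hp3⟩ := hA b.toZFSet (vh_ord hb.le)
      (toZFSet_mem_toZFSet_iff.2 hb) (by
        show b.toZFSet ∉ j γ.ord.toZFSet
        rw [hjγ]
        exact fun h => absurd (toZFSet_mem_toZFSet_iff.1 h) (not_lt.2 hgb))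
    have hy' : y ∈ γ.ord.toZFSet := by
      rw [← hjγ]
      exact hy
    obtain ⟨a, ha, rfl⟩ := mem_toZFSet_iff.1 hy'
    exact ⟨a, ha, p, hp, hp1, hp2, hp3⟩
  choose! g hg1 p hg2 hg3 hg4 hg5 using hA'
  have hκγ : γ.ord < κ := Cardinal.ord_lt_ord.2 (lt_succ γ)
  have hinj : ∀ b, γ.ord ≤ b → b < κ → ∀ b', γ.ord ≤ b' → b' < κ → g b = g b' → b = b' := by
    intro b hb1 hb2 b' hb1' hb2' he
    have hn : ∀ c, γ.ord ≤ c → c.toZFSet ∉ j γ.ord.toZFSet := fun c hc h => by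
      rw [hjγ] at h
      exact absurd (toZFSet_mem_toZFSet_iff.1 h) (not_lt.2 hc)
    refine toZFSet_injective (hB (g b).toZFSet
      (vh_ord (((hg1 b hb1 hb2).trans hκγ).le)) b.toZFSet (vh_ord hb2.le) b'.toZFSet
      (vh_ord hb2'.le) (p b) (hg2 b hb1 hb2) (p b') (hg2 b' hb1' hb2') ?_ (hg3 b hb1 hb2)
      (hg3 b' hb1' hb2') (hg4 b hb1 hb2) (by rw [he]; exact hg4 b' hb1' hb2')
      (hg5 b hb1 hb2) (hg5 b' hb1' hb2') (hn b hb1) (hn b' hb1'))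
    show (g b).toZFSet ∈ j γ.ord.toZFSet
    rw [hjγ]
    exact toZFSet_mem_toZFSet_iff.2 (hg1 b hb1 hb2)
  -- cardinalities
  have hcard : #(Iio κ) ≤ #(Iio γ.ord) + #(Iio γ.ord) := by
    have hun : Iio κ ⊆ Iio γ.ord ∪ (Ico γ.ord κ) := by
      intro x hx
      by_cases h : x < γ.ord
      · exact Or.inl h
      · exact Or.inr ⟨not_lt.1 h, hx⟩
    refine (Cardinal.mk_le_mk_of_subset hun).trans ((Cardinal.mk_union_le _ _).trans ?_)
    refine add_le_add le_rfl ?_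
    refine Cardinal.mk_le_of_injective (f := fun x : Ico γ.ord κ =>
      (⟨g x.1, hg1 x.1 x.2.1 x.2.2⟩ : Iio γ.ord)) ?_
    intro x y he
    exact Subtype.ext (hinj x.1 x.2.1 x.2.2 y.1 y.2.1 y.2.2 (congrArg Subtype.val he))
  rw [Cardinal.mk_Iio_ordinal, Cardinal.mk_Iio_ordinal, Cardinal.card_ord, Cardinal.card_ord,
    ← Cardinal.lift_add, Cardinal.lift_le, Cardinal.add_eq_self hγ] at hcard
  exact absurd hcard (not_le.2 (lt_succ γ))

end Pool.Agent.H7.HD9.Z1
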