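import Pool.Agent.H7.HD9.All9
import Pool.Agent.H7.HD9.Z1
import Pool.Agent.H1.HD9.Y5
import Pool.Agent.H6.HD9.Y2
import Pool.Agent.H20.HD9.CD
import Pool.Agent.H20.HD9.LX
import Pool.Agent.H69.HD9.Y4
import Pool.Agent.H54.CL.Types

/-!
# The theorem on `V`-sequences of subsets in HOD (MP_e37c09_lc)
-/

open Ordinal Cardinal Order Set
open scoped ZFSet

universe u

namespace HD

/-- There are a club subset `C` of `K` and an enumeration `e` of the subsets of `K` in HOD such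
that for each `ξ ∈ C` the subsets of `ξ` in HOD are the sets `e ζ ∩ ξ`, `ζ < ξ`, and there is an
elementary embedding of `(V_ (ξ + 1))^HOD` into `(V_ (K + 1))^HOD` with critical point `ξ` which
maps `ξ` to `K`. -/
def VE (K : Cardinal.{u}) : Prop := ∃ (C : Set Ordinal.{u}) (e : Ordinal.{u} → ZFSet.{u}),
  Clb K.ord C ∧ (∀ ζ, HOD (e ζ) ∧ e ζ ⊆ K.ord.toZFSet) ∧
  (∀ x, HOD x → x ⊆ K.ord.toZFSet → ∃ ζ < K.ord, x = e ζ) ∧
  ∀ ξ ∈ C, ξ < K.ord → (∀ x, HOD x → x ⊆ ξ.toZFSet → ∃ ζ < ξ, x = e ζ ∩ ξ.toZFSet) ∧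
    ∃ j, HEmb ξ K.ord j

/-- Each sequence `y` in `V` of sets `y a ⊆ a` in HOD, for `a` in a stationary subset `S` of `K`,
coheres on a stationary set: for some `A` in HOD, `y a = A ∩ a` for stationarily many `a ∈ S`. -/
def VI (K : Cardinal.{u}) : Prop := ∀ (S : Set Ordinal.{u}) (y : Ordinal.{u} → ZFSet.{u}),
  (∀ C, Clb K.ord C → ∃ a < K.ord, a ∈ C ∧ a ∈ S) →
  (∀ a ∈ S, a < K.ord → HOD (y a) ∧ y a ⊆ a.toZFSet) →
    ∃ A, HOD A ∧ A ⊆ K.ord.toZFSet ∧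
      ∀ C, Clb K.ord C → ∃ a < K.ord, a ∈ C ∧ a ∈ S ∧ y a = A ∩ a.toZFSet

namespace All

theorem cdd : T_CD.{u} := Pool.Agent.H20.HD9.CD.X
theorem lx : T_LX.{u} := Pool.Agent.H20.HD9.LX.X Pool.Agent.H77.HD9.NP.X
theorem ac : T_AC.{u} := vf_of cdd lx
theorem y2 : T_Y2.{u} := Pool.Agent.H6.HD9.Y2.X Pool.Agent.H65.HD9.Y1.X
theorem y3 : T_Y3.{u} := Pool.Agent.H34.HD9.Y3.X y2
theorem y5 : T_Y5.{u} := Pool.Agent.H1.HD9.Y5.X Pool.Agent.H69.HD9.Y4.X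

theorem ve_of {D G K : Cardinal.{u}} (hB : BG D G) (hK : K.IsRegular) (hG : succ G < K) :
    VE K := by
  have hK0 : ℵ₀ < K := hB.dunc.trans_le (hB.dg.trans ((le_succ G).trans hG.le))
  have hVF := ac D G K hB hK hG
  obtain ⟨C2, hC2, hC3⟩ := y5 K hK hK0
    (y3 K hK hK0 (pk D G K hB hK ((lt_succ G).trans hG)) hVF)
  obtain ⟨C, e, hC, h1, h2, h3⟩ := hVF
  exact ⟨C ∩ C2, e, ci K.ord C C2 (by rw [hK.cof_ord]; exact hK0) hC hC2, h1, h2,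
    fun ξ hξ hξK => ⟨h3 ξ hξ.1 hξK, hC3 ξ hξ.2 hξK⟩⟩

theorem vi_of {D G K : Cardinal.{u}} (hB : BG D G) (hK : K.IsRegular) (hG : succ G < K) :
    VI K := by
  have hK0 : ℵ₀ < K := hB.dunc.trans_le (hB.dg.trans ((le_succ G).trans hG.le))
  exact Pool.Agent.H60.HD9.VS.vs K hK hK0 (ac D G K hB hK hG)

/-- strongly compact cardinals -/
theorem m13 (D K₀ : Cardinal.{u}) (hD : StrComp D) (hDK₀ : D < K₀) (hS : OmSM K₀)
    (K : Cardinal.{u}) (hK : K.IsRegular) (hK₀K : succ K₀ < K) : VE K ∧ VI K ∧ TwoTypes K := by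
  have hB := bB D K₀ hD hS hDK₀
  have hK0 : ℵ₀ < K := hB.dunc.trans_le (hB.dg.trans ((le_succ K₀).trans hK₀K.le))
  refine ⟨ve_of hB hK hK₀K, vi_of hB hK hK₀K, ?_⟩
  obtain ⟨-, -, ⟨τ₀, h1, -, h3, -, h5, h6⟩, -⟩ :=
    m12 D K₀ hD hDK₀ hS K hK ((lt_succ K₀).trans hK₀K)
  exact Pool.Agent.H54.CL.two_types hK0 hK (ac D K₀ K hB hK hK₀K)
    ⟨τ₀, h1, h3, h5, fun lam g1 g2 g3 => (h6 lam g1 g2 g3).1⟩

/-- extendible cardinals -/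
theorem m14 (δ : Ordinal.{u}) (hδ : Extendible δ) : CaseA δ ∨ ∀ l < δ, ∃ δ₀ < δ, l < δ₀ ∧
    ∀ K : Cardinal.{u}, K.IsRegular → δ₀ < K.ord → VE K ∧ VI K ∧ TwoTypes K := by
  by_cases hA : CaseA δ
  · exact Or.inl hA
  refine Or.inr fun l hl => ?_
  obtain ⟨D, h1, h2, h3, h4⟩ := gr δ hδ hA l hl
  obtain ⟨η, -, θ, j, hj⟩ := xa δ hδ 0
  obtain ⟨D', hD', -, h5, -⟩ := xb δ η θ j hj
  refine ⟨(succ D).ord, ?_, h2.trans (Cardinal.ord_lt_ord.2 (lt_succ D)), fun K hK hDK => ?_⟩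
  · rw [hD'] at h1 ⊢
    exact Cardinal.ord_lt_ord.2 (h5.isSuccLimit.succ_lt (Cardinal.ord_lt_ord.1 h1))
  · have hDK' := Cardinal.ord_lt_ord.1 hDK
    have hB := bA D h3 h4
    have hK0 : ℵ₀ < K := hB.dunc.trans_le ((le_succ D).trans hDK'.le)
    refine ⟨ve_of hB hK hDK', vi_of hB hK hDK', ?_⟩
    obtain ⟨τ₀, g1, -, g3, -, g5, g6⟩ := fin_tau rr sp th h3 hK ((lt_succ D).trans hDK')
    exact Pool.Agent.H54.CL.two_types hK0 hK (ac D D K hB hK hDK')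
      ⟨τ₀, g1, g3, g5, fun lam g1 g2 g3 => (g6 lam g1 g2 g3).1⟩

/-- The first alternative in terms of elementary embeddings -/
theorem m15 (δ : Ordinal.{u}) (hδ : Extendible δ) : CaseA δ ↔
    ∀ γ : Cardinal.{u}, ℵ₀ ≤ γ → ¬ γ.IsRegular → δ < γ.ord → ∀ ξ, γ.ord < ξ →
      ξ < (succ γ).ord → ¬ ∃ j, HEmb ξ (succ γ).ord j := by
  constructor
  · intro hA γ h1 h2 h3 ξ h4 h5
    exact Pool.Agent.H7.HD9.Z1.z1 γ h1 ξ h4 ((hA γ h1 h2 h3).2 ξ h4 h5)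
  · intro h
    by_contra hA
    have hA' := hA
    unfold CaseA at hA'
    push Not at hA'
    obtain ⟨γ, h1, h2, h3, -⟩ := hA'
    obtain ⟨δ₀, h4, -, h5⟩ := (m14 δ hδ).resolve_left hA 0 (by
      obtain ⟨η, -, θ, j, hj⟩ := xa δ hδ 0
      obtain ⟨D', hD', -, -, h6⟩ := xb δ η θ j hj
      rw [hD']
      exact (Cardinal.isSuccLimit_ord h6.le).bot_lt)
    have h7 : γ.ord < (succ γ).ord := Cardinal.ord_lt_ord.2 (lt_succ γ)
    obtain ⟨⟨C, e, hC, -, -, h6⟩, -, -⟩ := h5 (succ γ) (Cardinal.isRegular_succ h1)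
      (h4.trans (h3.trans h7))
    obtain ⟨ξ, h8, h9, h10⟩ := hC.unb γ.ord h7
    exact h γ h1 h2 h3 ξ h9 h8 (h6 ξ h10 h8).2

end All

end HD
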